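import Pool.Agent.H507R3.PlaneInt

/-!
Integration along rays, for functions which are differentiable along almost all rays.
-/

set_option autoImplicit false

namespace Pool.Agent.Y625.ND

open MeasureTheory Filter Topology Set Metric
open scoped RealInnerProductSpace
open Pool.Agent.H507R3 (E2 mk2 om norm_om integral_polar)

/-- **Integration along rays.** -/
lemma ray_integral {φ : E2 → ℝ} {Φ : E2 → E2} {c : E2} {N : Set ℝ} (hN : volume N = 0)
    (hd : ∀ θ ∈ Ioo (-Real.pi) Real.pi, θ ∉ N → ∀ r : ℝ, 0 < r →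
      HasFDerivAt φ (innerSL ℝ (Φ (c + r • om θ))) (c + r • om θ))
    (h0 : ∀ θ ∈ Ioo (-Real.pi) Real.pi, θ ∉ N →
      Tendsto (fun r : ℝ => φ (c + r • om θ)) (𝓝[>] 0) (𝓝 0))
    (h1 : HasCompactSupport φ) :
    ∫ x, ⟪(‖x - c‖ ^ 2)⁻¹ • (x - c), Φ x⟫ = 0 := by
  rw [integral_polar _ c]
  by_cases hI : IntegrableOn (fun p : ℝ × ℝ => p.1 *
    ⟪(‖(c + p.1 • om p.2) - c‖ ^ 2)⁻¹ • ((c + p.1 • om p.2) - c), Φ (c + p.1 • om p.2)⟫)
    (Ioi (0 : ℝ) ×ˢ Ioo (-Real.pi) Real.pi)
  swap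
  · exact integral_undef hI
  rw [Measure.volume_eq_prod, ← Measure.prod_restrict, integral_prod_symm _ (by
    rwa [IntegrableOn, Measure.volume_eq_prod, ← Measure.prod_restrict] at hI)]
  have hae : ∀ᵐ θ : ℝ ∂(volume.restrict (Ioo (-Real.pi) Real.pi)), θ ∉ N :=
    ae_restrict_of_ae (measure_eq_zero_iff_ae_notMem.mp hN)
  apply integral_eq_zero_of_ae
  filter_upwards [hae, ae_restrict_mem measurableSet_Ioo] with θ hθ0 hθ
  simp only [Pi.zero_apply]
  have e1 : ∀ r ∈ Ioi (0 : ℝ), r * ⟪(‖(c + r • om θ) - c‖ ^ 2)⁻¹ • ((c + r • om θ) - c),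
      Φ (c + r • om θ)⟫ = ⟪Φ (c + r • om θ), om θ⟫ := by
    intro r hr
    have hr0 : r ≠ 0 := (mem_Ioi.mp hr).ne'
    rw [add_sub_cancel_left, norm_smul, norm_om, mul_one, inner_smul_left, inner_smul_left,
      real_inner_comm]
    simp only [Real.norm_eq_abs, sq_abs, conj_trivial]
    field_simp
  rw [setIntegral_congr_fun measurableSet_Ioi e1]
  by_cases hJ : IntegrableOn (fun r : ℝ => ⟪Φ (c + r • om θ), om θ⟫) (Ioi 0)
  swap
  · exact integral_undef hJ
  have hder : ∀ r ∈ Ioi (0 : ℝ), HasDerivAt (fun r : ℝ => φ (c + r • om θ))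
      ⟪Φ (c + r • om θ), om θ⟫ r := by
    intro r hr
    have hl : HasDerivAt (fun r : ℝ => c + r • om θ) (om θ) r := by
      simpa using ((hasDerivAt_id r).smul_const (om θ)).const_add c
    exact (hd θ hθ hθ0 r hr).comp_hasDerivAt r hl
  have htop : Tendsto (fun r : ℝ => φ (c + r • om θ)) atTop (𝓝 0) := by
    obtain ⟨M, hM⟩ := h1.isCompact.isBounded.subset_closedBall c
    refine tendsto_const_nhds.congr' ?_
    filter_upwards [eventually_gt_atTop (max M 0)] with r hr
    symm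
    apply image_eq_zero_of_notMem_tsupport
    intro hmem
    have := hM hmem
    rw [mem_closedBall, dist_self_add_left, norm_smul, norm_om, mul_one, Real.norm_eq_abs,
      abs_of_pos (lt_of_le_of_lt (le_max_right _ _) hr)] at this
    exact absurd (lt_of_le_of_lt (le_max_left _ _) hr) (not_lt.mpr this)
  have := integral_Ioi_of_hasDerivAt_of_tendsto
    (f := fun r : ℝ => if r = 0 then 0 else φ (c + r • om θ))
    (f' := fun r : ℝ => ⟪Φ (c + r • om θ), om θ⟫) (a := 0) (m := 0) ?_ ?_ hJ ?_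
  · rw [this]; simp
  · rw [ContinuousWithinAt, if_pos rfl]
    have : Ici (0 : ℝ) = insert 0 (Ioi 0) := by ext; simp [le_iff_eq_or_lt, eq_comm]
    rw [this, nhdsWithin_insert, tendsto_sup]
    constructor
    · rw [tendsto_pure_left]
      intro s hs
      simp only [if_true]
      exact mem_of_mem_nhds hs
    · refine (h0 θ hθ hθ0).congr' ?_
      filter_upwards [self_mem_nhdsWithin] with r hr
      rw [if_neg (mem_Ioi.mp hr).ne']
  · intro r hr
    refine (hder r hr).congr_of_eventuallyEq ?_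
    filter_upwards [isOpen_Ioi.mem_nhds hr] with s hs
    rw [if_neg (mem_Ioi.mp hs).ne']
  · refine htop.congr' ?_
    filter_upwards [eventually_gt_atTop 0] with r hr
    rw [if_neg hr.ne']

/-- The directions in which the points of a countable set are seen. -/
def dirs (S : Set E2) (c : E2) : Set ℝ :=
  {θ | θ ∈ Ioo (-Real.pi) Real.pi ∧ ∃ r : ℝ, 0 < r ∧ c + r • om θ ∈ S}

lemma om_inj {r r' θ θ' : ℝ} (hr : 0 < r) (hr' : 0 < r') (hθ : θ ∈ Ioo (-Real.pi) Real.pi)
    (hθ' : θ' ∈ Ioo (-Real.pi) Real.pi) (h : r • om θ = r' • om θ') : θ = θ' := by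
  have h1 : polarCoord.symm (r, θ) = polarCoord.symm (r', θ') := by
    rw [polarCoord_symm_apply, polarCoord_symm_apply]
    have e0 := congrArg (fun x : E2 => x 0) h
    have e1 := congrArg (fun x : E2 => x 1) h
    simp [om] at e0 e1
    exact Prod.ext e0 e1
  have h2 := polarCoord.symm.injOn (by
    change (r, θ) ∈ polarCoord.target
    rw [polarCoord_target]
    exact ⟨hr, hθ⟩) (by
    change (r', θ') ∈ polarCoord.target
    rw [polarCoord_target]
    exact ⟨hr', hθ'⟩) h1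
  exact congrArg Prod.snd h2

lemma countable_dirs {S : Set E2} (hS : S.Countable) (c : E2) : (dirs S c).Countable := by
  have h : dirs S c = ⋃ s ∈ S, {θ | θ ∈ Ioo (-Real.pi) Real.pi ∧ ∃ r : ℝ, 0 < r ∧
      c + r • om θ = s} := by
    ext θ
    simp only [dirs, mem_ofPred_eq, mem_iUnion, exists_prop]
    constructor
    · rintro ⟨h1, r, hr, h2⟩
      exact ⟨_, h2, h1, r, hr, rfl⟩
    · rintro ⟨s, hs, h1, r, hr, h2⟩
      exact ⟨h1, r, hr, h2 ▸ hs⟩
  rw [h]
  refine hS.biUnion fun s _ => Set.Subsingleton.countable ?_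
  rintro θ ⟨h1, r, hr, h2⟩ θ' ⟨h1', r', hr', h2'⟩
  refine om_inj hr hr' h1 h1' ?_
  have := h2.trans h2'.symm
  exact add_left_cancel this

end Pool.Agent.Y625.ND
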