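import Pool.Agent.H507R3.LogPotL2

/-!
Potentials `v = ∑ λ 8^{-i} log (2R / |x - pᵢ|)` with arbitrary poles `pᵢ` (a dense set is allowed),
their partial sums, and a square integrable majorant of `∑_{i<N} |∇vᵢ| / (1 + v_N)` which does not
depend on `N`.
-/

set_option autoImplicit false

namespace Pool.Agent.Y625.ND

open MeasureTheory Filter Topology Set Metric
open scoped RealInnerProductSpace ENNReal
open Pool.Agent.H507R3 (E2 mk2 om norm_om lintegral_two integral_polar line_integral_zero
  line_integral_one mk2_mp mk2_emb)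

/-- The radius, a factor, and the poles. -/
structure Dat where
  R : ℝ
  lam : ℝ
  p : ℕ → E2
  hR : 0 < R
  hl : 0 < lam
  hp : ∀ i, ‖p i‖ < R

variable (D : Dat)

/-- The weights. -/
noncomputable def dl (i : ℕ) : ℝ := D.lam * (1 / 8) ^ i

/-- The summands of the potential. -/
noncomputable def vt (i : ℕ) (x : E2) : ℝ := dl D i * Real.log (2 * D.R / ‖x - D.p i‖)

/-- The summands of the negative gradient of the potential. -/
noncomputable def gt (i : ℕ) (x : E2) : E2 := dl D i • ((‖x - D.p i‖ ^ 2)⁻¹ • (x - D.p i))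

/-- The partial sums of the potential. -/
noncomputable def vN (N : ℕ) (x : E2) : ℝ := ∑ i ∈ Finset.range N, vt D i x

/-- The partial sums of the gradient. -/
noncomputable def gN (N : ℕ) (x : E2) : E2 := ∑ i ∈ Finset.range N, gt D i x

/-- The partial sums of the norms of the gradients. -/
noncomputable def kN (N : ℕ) (x : E2) : ℝ := ∑ i ∈ Finset.range N, ‖gt D i x‖

/-- The potential. -/
noncomputable def vp (x : E2) : ℝ := ∑' i, vt D i x

/-- The negative gradient of the potential. -/
noncomputable def gv (x : E2) : E2 := ∑' i, gt D i x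

/-- The poles. -/
def Sx : Set E2 := range D.p

/-- The points which are not approximated well by the poles. -/
def Good (x : E2) : Prop := ∃ c : ℝ, 0 < c ∧ ∀ i, c * (1 / 2) ^ i ≤ ‖x - D.p i‖

variable {D}

lemma dl_pos (i : ℕ) : 0 < dl D i := by
  have := D.hl
  unfold dl
  positivity

lemma Good.notMem {x : E2} (h : Good D x) : x ∉ Sx D := by
  rintro ⟨i, rfl⟩
  obtain ⟨c, hc, h⟩ := h
  have := h i
  rw [sub_self, norm_zero] at this
  have : 0 < c * (1 / 2 : ℝ) ^ i := by positivity
  linarith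

lemma countable_Sx : (Sx D).Countable := countable_range _

lemma ae_notMem_Sx : ∀ᵐ x : E2, x ∉ Sx D :=
  measure_eq_zero_iff_ae_notMem.mp (countable_Sx.measure_zero _)

lemma exists_min {x : E2} (hx : x ∉ Sx D) (n : ℕ) :
    ∃ c : ℝ, 0 < c ∧ ∀ i < n, c ≤ ‖x - D.p i‖ := by
  induction n with
  | zero => exact ⟨1, one_pos, fun i hi => absurd hi (Nat.not_lt_zero i)⟩
  | succ n ih =>
    obtain ⟨c, hc, h⟩ := ih
    have h1 : 0 < ‖x - D.p n‖ := by
      rw [norm_pos_iff, sub_ne_zero]
      rintro rfl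
      exact hx ⟨n, rfl⟩
    refine ⟨min c ‖x - D.p n‖, lt_min hc h1, fun i hi => ?_⟩
    rcases Nat.lt_succ_iff_lt_or_eq.mp hi with h2 | rfl
    · exact (min_le_left _ _).trans (h i h2)
    · exact min_le_right _ _

lemma ae_Good : ∀ᵐ x : E2, Good D x := by
  have hsum : (∑' i, (volume : Measure E2) (ball (D.p i) ((1 / 2) ^ i))) ≠ ∞ := by
    have h1 : ∀ i : ℕ, (volume : Measure E2) (ball (D.p i) ((1 / 2) ^ i)) =
        ENNReal.ofReal ((1 / 4) ^ i) * volume (ball (0 : E2) 1) := by
      intro i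
      rw [Measure.addHaar_ball _ _ (by positivity)]
      congr 2
      rw [finrank_euclideanSpace_fin, ← pow_mul, mul_comm, pow_mul]
      norm_num
    simp_rw [h1]
    rw [ENNReal.tsum_mul_right, ← ENNReal.ofReal_tsum_of_nonneg (fun i => by positivity)
      (summable_geometric_of_lt_one (by norm_num) (by norm_num))]
    exact ENNReal.mul_ne_top ENNReal.ofReal_ne_top measure_ball_lt_top.ne
  filter_upwards [ae_eventually_notMem hsum, ae_notMem_Sx (D := D)] with x h1 h2
  obtain ⟨n, hn⟩ := eventually_atTop.mp h1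
  obtain ⟨c, hc, h⟩ := exists_min h2 n
  refine ⟨min c 1, lt_min hc one_pos, fun i => ?_⟩
  have hp1 : (1 / 2 : ℝ) ^ i ≤ 1 := pow_le_one₀ (by norm_num) (by norm_num)
  have hp0 : (0 : ℝ) < (1 / 2) ^ i := by positivity
  rcases lt_or_ge i n with hi | hi
  · calc min c 1 * (1 / 2) ^ i ≤ c * 1 :=
          mul_le_mul (min_le_left _ _) hp1 hp0.le hc.le
      _ ≤ _ := by rw [mul_one]; exact h i hi
  · have h3 := hn i hi
    rw [mem_ball, dist_eq_norm, not_lt] at h3
    calc min c 1 * (1 / 2) ^ i ≤ 1 * (1 / 2) ^ i :=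
          mul_le_mul_of_nonneg_right (min_le_right _ _) hp0.le
      _ ≤ _ := by rw [one_mul]; exact h3

lemma norm_gt (i : ℕ) (x : E2) : ‖gt D i x‖ = dl D i / ‖x - D.p i‖ := by
  rw [gt, norm_smul, norm_smul, Real.norm_eq_abs, abs_of_pos (dl_pos i), Real.norm_eq_abs,
    abs_of_nonneg (by positivity)]
  rcases eq_or_ne (‖x - D.p i‖) 0 with h | h
  · rw [h]; simp
  · field_simp

lemma Good.pos {x : E2} (h : Good D x) (i : ℕ) : 0 < ‖x - D.p i‖ := by
  obtain ⟨c, hc, h⟩ := h
  exact lt_of_lt_of_le (by positivity) (h i)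

lemma summable_norm_gt {x : E2} (h : Good D x) : Summable fun i => ‖gt D i x‖ := by
  have h0 := h
  obtain ⟨c, hc, h⟩ := h
  have hs : Summable fun i : ℕ => D.lam / c * (1 / 4 : ℝ) ^ i :=
    (summable_geometric_of_lt_one (by norm_num) (by norm_num)).mul_left _
  refine Summable.of_nonneg_of_le (fun i => norm_nonneg _) (fun i => ?_) hs
  have hl := D.hl
  rw [norm_gt, div_le_iff₀ (h0.pos i), dl]
  calc D.lam * (1 / 8) ^ i = D.lam / c * (1 / 4) ^ i * (c * (1 / 2) ^ i) := by
        have : (1 / 8 : ℝ) ^ i = (1 / 4) ^ i * (1 / 2) ^ i := by rw [← mul_pow]; norm_num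
        rw [this]
        field_simp
    _ ≤ _ := mul_le_mul_of_nonneg_left (h i) (by positivity)

lemma summable_gt {x : E2} (h : Good D x) : Summable fun i => gt D i x :=
  (summable_norm_gt h).of_norm

lemma dist_p_le {x : E2} (hx : x ∈ ball (0 : E2) D.R) (i : ℕ) : ‖x - D.p i‖ ≤ 2 * D.R := by
  have h1 := norm_sub_le x (D.p i)
  have h2 := D.hp i
  rw [mem_ball_zero_iff] at hx
  linarith

lemma vt_nonneg {x : E2} (hx : x ∈ ball (0 : E2) D.R) (i : ℕ) : 0 ≤ vt D i x := by
  apply mul_nonneg (dl_pos i).le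
  rcases eq_or_ne (‖x - D.p i‖) 0 with h | h
  · rw [h]; simp
  · have hpos : 0 < ‖x - D.p i‖ := lt_of_le_of_ne (norm_nonneg _) (Ne.symm h)
    apply Real.log_nonneg
    rw [le_div_iff₀ hpos]
    linarith [dist_p_le hx i]

lemma summable_vt {x : E2} (h : Good D x) (hx : x ∈ ball (0 : E2) D.R) :
    Summable fun i => vt D i x := by
  refine Summable.of_nonneg_of_le (vt_nonneg hx) (fun i => ?_)
    ((summable_norm_gt h).mul_left (2 * D.R))
  have hR := D.hR
  rw [norm_gt, vt]
  calc dl D i * Real.log (2 * D.R / ‖x - D.p i‖) ≤ dl D i * (2 * D.R / ‖x - D.p i‖) :=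
        mul_le_mul_of_nonneg_left (Real.log_le_self (by positivity)) (dl_pos i).le
    _ = _ := by ring

lemma vN_nonneg {x : E2} (hx : x ∈ ball (0 : E2) D.R) (N : ℕ) : 0 ≤ vN D N x :=
  Finset.sum_nonneg fun i _ => vt_nonneg hx i

lemma vp_nonneg {x : E2} (hx : x ∈ ball (0 : E2) D.R) : 0 ≤ vp D x := tsum_nonneg (vt_nonneg hx)

lemma vt_le_vN {x : E2} (hx : x ∈ ball (0 : E2) D.R) {N i : ℕ} (hi : i ∈ Finset.range N) :
    vt D i x ≤ vN D N x :=
  Finset.single_le_sum (f := fun i => vt D i x) (fun j _ => vt_nonneg hx j) hi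

lemma vt_le_vp {x : E2} (h : Good D x) (hx : x ∈ ball (0 : E2) D.R) (i : ℕ) :
    vt D i x ≤ vp D x := (summable_vt h hx).le_tsum i fun j _ => vt_nonneg hx j

lemma kN_nonneg (N : ℕ) (x : E2) : 0 ≤ kN D N x := Finset.sum_nonneg fun i _ => norm_nonneg _

lemma norm_gN_le (N : ℕ) (x : E2) : ‖gN D N x‖ ≤ kN D N x := norm_sum_le _ _

lemma tendsto_vN {x : E2} (h : Good D x) (hx : x ∈ ball (0 : E2) D.R) :
    Tendsto (fun N => vN D N x) atTop (𝓝 (vp D x)) := (summable_vt h hx).hasSum.tendsto_sum_nat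

lemma tendsto_gN {x : E2} (h : Good D x) :
    Tendsto (fun N => gN D N x) atTop (𝓝 (gv D x)) := (summable_gt h).hasSum.tendsto_sum_nat

lemma hasFDerivAt_vt {x : E2} {i : ℕ} (hx : x ≠ D.p i) :
    HasFDerivAt (vt D i) (-(innerSL ℝ (gt D i x))) x := by
  have hR := D.hR
  have hne : x - D.p i ≠ 0 := sub_ne_zero.mpr hx
  have hpos : 0 < ‖x - D.p i‖ ^ 2 := by positivity
  have h1 : HasFDerivAt (fun y : E2 => ‖y - D.p i‖ ^ 2)
      (2 • (innerSL ℝ (x - D.p i)).comp (ContinuousLinearMap.id ℝ E2)) x :=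
    ((hasFDerivAt_id x).sub_const (D.p i)).norm_sq
  have h2 := (h1.log hpos.ne').const_mul (1 / 2 : ℝ)
  have h3 := (h2.const_sub (Real.log (2 * D.R))).const_mul (dl D i)
  have e : vt D i =ᶠ[𝓝 x]
      fun y => dl D i * (Real.log (2 * D.R) - 1 / 2 * Real.log (‖y - D.p i‖ ^ 2)) := by
    filter_upwards [isOpen_ne.mem_nhds hx] with y hy
    have hy' : y - D.p i ≠ 0 := sub_ne_zero.mpr hy
    rw [vt, Real.log_div (by positivity) (by positivity), Real.log_pow]
    push_cast
    ring
  refine (h3.congr_of_eventuallyEq e).congr_fderiv ?_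
  ext w
  simp only [smul_apply, neg_apply,
    ContinuousLinearMap.comp_id, innerSL_apply_apply, gt, inner_smul_left, smul_eq_mul,
    conj_trivial, nsmul_eq_mul]
  push_cast
  ring

lemma hasFDerivAt_vN (N : ℕ) {x : E2} (hx : x ∉ Sx D) :
    HasFDerivAt (vN D N) (-(innerSL ℝ (gN D N x))) x := by
  have h : HasFDerivAt (fun y => ∑ i ∈ Finset.range N, vt D i y)
      (∑ i ∈ Finset.range N, -(innerSL ℝ (gt D i x))) x :=
    HasFDerivAt.fun_sum fun i _ => hasFDerivAt_vt fun he => hx ⟨i, he.symm⟩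
  refine h.congr_fderiv ?_
  rw [Finset.sum_neg_distrib, gN, map_sum]

lemma measurable_vt (i : ℕ) : Measurable (vt D i) := by
  unfold vt
  exact measurable_const.mul (Real.measurable_log.comp
    (measurable_const.div ((measurable_id.sub_const _).norm)))

lemma measurable_gt (i : ℕ) : Measurable (gt D i) := by
  unfold gt
  have h : Measurable fun x : E2 => x - D.p i := measurable_id.sub_const _
  exact (((h.norm.pow_const 2).inv).smul h).const_smul (dl D i)

lemma measurable_vN (N : ℕ) : Measurable (vN D N) :=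
  Finset.measurable_fun_sum _ fun i _ => measurable_vt i

lemma measurable_gN (N : ℕ) : Measurable (gN D N) :=
  Finset.measurable_fun_sum _ fun i _ => measurable_gt i

lemma measurable_kN (N : ℕ) : Measurable (kN D N) :=
  Finset.measurable_fun_sum _ fun i _ => (measurable_gt i).norm

lemma measurable_vp : Measurable (vp D) := Measurable.tsum fun i => measurable_vt i

lemma measurable_gv : Measurable (gv D) := Measurable.tsum fun i => measurable_gt i

/-! ### The majorant -/

variable (D) in
/-- The terms of the majorant. -/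
noncomputable def mt (i : ℕ) (x : E2) : ℝ :=
  D.lam * (1 / 4) ^ i / (‖x - D.p i‖ * (1 + vt D i x))

variable (D) in
/-- The majorant. -/
noncomputable def Mj (x : E2) : ℝ := 2 * √(∑' i, mt D i x ^ 2)

lemma mt_nonneg {x : E2} (hx : x ∈ ball (0 : E2) D.R) (i : ℕ) : 0 ≤ mt D i x := by
  have h1 := vt_nonneg hx i
  have h2 := D.hl
  unfold mt
  positivity

lemma summable_mt {x : E2} (h : Good D x) (hx : x ∈ ball (0 : E2) D.R) :
    Summable fun i => mt D i x ^ 2 := by
  have h0 := h
  obtain ⟨c, hc, h⟩ := h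
  have hl := D.hl
  have hs : Summable fun i : ℕ => (D.lam / c) ^ 2 * (1 / 4 : ℝ) ^ i :=
    (summable_geometric_of_lt_one (by norm_num) (by norm_num)).mul_left _
  refine Summable.of_nonneg_of_le (fun i => sq_nonneg _) (fun i => ?_) hs
  have hv := vt_nonneg hx i
  have h1 : mt D i x ≤ D.lam / c * (1 / 2) ^ i := by
    have hp := h0.pos i
    rw [mt, div_le_iff₀ (by positivity)]
    calc D.lam * (1 / 4) ^ i = D.lam / c * (1 / 2) ^ i * ((c * (1 / 2) ^ i) * 1) := by
          have : (1 / 4 : ℝ) ^ i = (1 / 2) ^ i * (1 / 2) ^ i := by rw [← mul_pow]; norm_num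
          rw [this]
          field_simp
      _ ≤ _ := by
          refine mul_le_mul_of_nonneg_left ?_ (by positivity)
          exact mul_le_mul (h i) (by linarith) (by norm_num) hp.le
  calc mt D i x ^ 2 ≤ (D.lam / c * (1 / 2) ^ i) ^ 2 := pow_le_pow_left₀ (mt_nonneg hx i) h1 2
    _ = _ := by
        rw [mul_pow, ← pow_mul, mul_comm i 2, pow_mul]
        norm_num

lemma Mj_nonneg (x : E2) : 0 ≤ Mj D x := by unfold Mj; positivity

lemma kN_le {x : E2} (h : Good D x) (hx : x ∈ ball (0 : E2) D.R) (N : ℕ) :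
    kN D N x / (1 + vN D N x) ≤ Mj D x := by
  have hv := vN_nonneg hx N
  rw [div_le_iff₀ (by positivity)]
  set F := ∑' i, mt D i x ^ 2 with hF
  have h1 : ∀ i ∈ Finset.range N, ‖gt D i x‖ ≤ (1 / 2) ^ i * (√F * (1 + vN D N x)) := by
    intro i hi
    have hm : mt D i x ≤ √F := by
      apply Real.le_sqrt_of_sq_le
      exact (summable_mt h hx).le_tsum i fun j _ => sq_nonneg _
    have hp := h.pos i
    have hvi := vt_nonneg hx i
    have e : ‖gt D i x‖ = (1 / 2) ^ i * (mt D i x * (1 + vt D i x)) := by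
      rw [norm_gt, mt, dl]
      have : (1 / 8 : ℝ) ^ i = (1 / 2) ^ i * (1 / 4) ^ i := by rw [← mul_pow]; norm_num
      rw [this]
      field_simp
    rw [e]
    refine mul_le_mul_of_nonneg_left ?_ (by positivity)
    exact mul_le_mul hm (by linarith [vt_le_vN hx hi]) (by positivity) (Real.sqrt_nonneg _)
  have h2 : ∑ i ∈ Finset.range N, (1 / 2 : ℝ) ^ i ≤ 2 := by
    refine le_trans ?_ tsum_geometric_two.le
    exact (summable_geometric_of_lt_one (r := (1 / 2 : ℝ)) (by norm_num)
      (by norm_num)).sum_le_tsum _ fun _ _ => by positivity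
  calc kN D N x ≤ ∑ i ∈ Finset.range N, (1 / 2) ^ i * (√F * (1 + vN D N x)) :=
        Finset.sum_le_sum h1
    _ = (∑ i ∈ Finset.range N, (1 / 2) ^ i) * (√F * (1 + vN D N x)) := by
        rw [Finset.sum_mul]
    _ ≤ 2 * (√F * (1 + vN D N x)) :=
        mul_le_mul_of_nonneg_right h2 (by positivity)
    _ = _ := by rw [Mj]; ring

lemma measurable_mt (i : ℕ) : Measurable (mt D i) := by
  unfold mt
  have h : Measurable fun x : E2 => ‖x - D.p i‖ := (measurable_id.sub_const _).norm
  exact measurable_const.div (h.mul ((measurable_vt i).const_add 1))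

lemma measurable_Mj : Measurable (Mj D) := by
  unfold Mj
  exact (Real.continuous_sqrt.measurable.comp
    (Measurable.tsum fun i => (measurable_mt i).pow_const 2)).const_mul 2

lemma lintegral_Mj :
    ∫⁻ x in ball (0 : E2) D.R, ENNReal.ofReal (Mj D x ^ 2) ≤
      ENNReal.ofReal (16 * Real.pi * D.lam) := by
  have hl := D.hl
  have hR := D.hR
  calc ∫⁻ x in ball (0 : E2) D.R, ENNReal.ofReal (Mj D x ^ 2)
      ≤ ∫⁻ x in ball (0 : E2) D.R, ∑' i, ENNReal.ofReal (4 * (D.lam ^ 2 * (1 / 16) ^ i)) *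
          ENNReal.ofReal (‖x - D.p i‖ ^ 2 *
            (1 + dl D i * Real.log (2 * D.R / ‖x - D.p i‖)) ^ 2)⁻¹ := by
        apply lintegral_mono_ae
        filter_upwards [ae_restrict_mem measurableSet_ball, ae_restrict_of_ae (ae_Good (D := D))]
          with x hx hS
        have e1 : Mj D x ^ 2 = ∑' i, 4 * mt D i x ^ 2 := by
          rw [Mj, mul_pow, Real.sq_sqrt (tsum_nonneg fun i => sq_nonneg _), tsum_mul_left]
          norm_num
        rw [e1, ENNReal.ofReal_tsum_of_nonneg (fun i => by positivity)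
          ((summable_mt hS hx).mul_left 4)]
        refine ENNReal.tsum_le_tsum fun i => ?_
        rw [← ENNReal.ofReal_mul (by positivity)]
        apply ENNReal.ofReal_le_ofReal
        have hp := hS.pos i
        have hv := vt_nonneg hx i
        rw [mt, vt] at *
        refine le_of_eq ?_
        have : (1 / 16 : ℝ) ^ i = ((1 / 4) ^ i) ^ 2 := by
          rw [← pow_mul, mul_comm i 2, pow_mul]; norm_num
        rw [this, div_pow, mul_pow, mul_pow, div_eq_mul_inv]
        ring
    _ = ∑' i, ∫⁻ x in ball (0 : E2) D.R, ENNReal.ofReal (4 * (D.lam ^ 2 * (1 / 16) ^ i)) *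
          ENNReal.ofReal (‖x - D.p i‖ ^ 2 *
            (1 + dl D i * Real.log (2 * D.R / ‖x - D.p i‖)) ^ 2)⁻¹ := by
        rw [lintegral_tsum]
        intro i
        apply Measurable.aemeasurable
        refine Measurable.const_mul ?_ _
        apply ENNReal.measurable_ofReal.comp
        apply Measurable.inv
        have h : Measurable fun x : E2 => ‖x - D.p i‖ := (measurable_id.sub_const _).norm
        exact (h.pow_const 2).mul (((measurable_vt (D := D) i).const_add 1).pow_const 2)
    _ ≤ ∑' i : ℕ, ENNReal.ofReal (8 * Real.pi * D.lam * (1 / 2) ^ i) := by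
        refine ENNReal.tsum_le_tsum fun i => ?_
        rw [lintegral_const_mul' _ _ ENNReal.ofReal_ne_top]
        have hsub : ball (0 : E2) D.R ⊆ ball (D.p i) (2 * D.R) := by
          intro x hx
          rw [mem_ball_zero_iff] at hx
          rw [mem_ball, dist_eq_norm]
          have h1 := norm_sub_le x (D.p i)
          have h2 := D.hp i
          linarith
        calc _ ≤ ENNReal.ofReal (4 * (D.lam ^ 2 * (1 / 16) ^ i)) *
              ENNReal.ofReal (2 * Real.pi * (dl D i)⁻¹) := by
              gcongr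
              exact (lintegral_mono_set hsub).trans (lintegral_two hR (dl_pos i) _)
          _ = _ := by
              rw [← ENNReal.ofReal_mul (by positivity)]
              congr 1
              rw [dl]
              have : ((1 : ℝ) / 16) ^ i * ((1 / 8) ^ i)⁻¹ = (1 / 2) ^ i := by
                rw [← inv_pow, ← mul_pow]; norm_num
              calc 4 * (D.lam ^ 2 * (1 / 16) ^ i) * (2 * Real.pi * (D.lam * (1 / 8) ^ i)⁻¹)
                  = 8 * Real.pi * (D.lam ^ 2 * D.lam⁻¹) * (((1 : ℝ) / 16) ^ i *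
                    ((1 / 8) ^ i)⁻¹) := by
                    rw [mul_inv]; ring
                _ = _ := by rw [this]; field_simp
    _ = _ := by
        rw [← ENNReal.ofReal_tsum_of_nonneg (fun i => by positivity)
          ((summable_geometric_of_lt_one (by norm_num) (by norm_num)).mul_left _),
          tsum_mul_left, tsum_geometric_two]
        congr 1
        ring

lemma memLp_Mj : MemLp (Mj D) 2 (volume.restrict (ball (0 : E2) D.R)) := by
  rw [memLp_two_iff_integrable_sq measurable_Mj.aestronglyMeasurable]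
  refine ⟨(measurable_Mj.pow_const 2).aestronglyMeasurable, ?_⟩
  rw [hasFiniteIntegral_iff_ofReal (Eventually.of_forall fun x => sq_nonneg _)]
  exact lt_of_le_of_lt lintegral_Mj ENNReal.ofReal_lt_top

end Pool.Agent.Y625.ND
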